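import Mathlib
import Pool.Agent.TH932.S2.All
import Pool.Agent.TH932.S2.G.Ss

set_option autoImplicit false

/-!
# The parity sequences of rational numbers under the `3x+1` map
-/

namespace Pool.Agent.Results.MP_1e211b_nt.RationalsSuperlinear

open Filter Topology Pool.Agent.TH932.Words Pool.Agent.TH932.S2

/-- the `3x+1` map on the rational numbers with odd denominator -/
def T (α : ℚ) : ℚ := if α.num % 2 = 0 then α / 2 else (3 * α + 1) / 2

/-- the parity sequence `x_i` of `α`: the parity of the numerator of `T^i(α)` -/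
def par (α : ℚ) (i : ℕ) : ZMod 2 := (((T^[i] α).num : ℤ) : ZMod 2)

/-- `p (n)`: the number of different blocks of `n` consecutive terms of the parity sequence -/
noncomputable def blocks (α : ℚ) (n : ℕ) : ℕ :=
  (Set.range fun i : ℕ => fun j : Fin n => par α (i + j)).ncard

/-- the number of different blocks of `n` consecutive terms among the first `H` ones -/
noncomputable def blocksUpTo (α : ℚ) (H n : ℕ) : ℕ :=
  ((fun i : ℕ => fun j : Fin n => par α (i + j)) '' {i | i + n ≤ H}).ncard

/-- the parity sequence is eventually periodic (that is, `Q_∞(α)` is rational) -/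
def EvPer (α : ℚ) : Prop := ∃ i p : ℕ, 1 ≤ p ∧ ∀ k, i ≤ k → par α (k + p) = par α k

lemma par_odd {a : ℤ} : ((a : ℤ) : ZMod 2) = 1 ↔ a % 2 = 1 := by
  have h1 : (1 : ZMod 2) = ((1 : ℤ) : ZMod 2) := by simp
  rw [h1, ZMod.intCast_eq_intCast_iff, Int.ModEq]
  norm_num

/-- exponents -/
def dl (a : ZMod 2) : ℕ := if a = 1 then 1 else 0

/-- the affine maps -/
def D : F.Dt (ZMod 2) where
  p := 2
  q := 3
  M := 3
  δ := dl
  β := fun a => (dl a : ℤ)
  hp := le_rfl
  hq := by norm_num
  hpq := by norm_num [Int.isCoprime_iff_gcd_eq_one]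
  hpM := by norm_num
  hqM := by intro a; unfold dl; split_ifs <;> norm_num
  hβM := by intro a; unfold dl; split_ifs <;> norm_num

/-- parities -/
def f (y : ℤ) : ZMod 2 := ((y : ℤ) : ZMod 2)

/-- the map on the numerators -/
def G (d y : ℤ) : ℤ := if y % 2 = 0 then y / 2 else (3 * y + d) / 2

lemma mp {d : ℤ} (hd : Odd d) : F.Mp D d f (G d) where
  hd := by
    obtain ⟨k, rfl⟩ := hd
    change IsCoprime (2 * k + 1) ((2 : ℕ) : ℤ)
    exact ⟨1, -k, by push_cast; ring⟩
  hG := by
    intro y
    change ((2 : ℕ) : ℤ) * G d y = ((3 : ℕ) : ℤ) ^ dl (f y) * y + d * (dl (f y) : ℤ)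
    have hd2 : d % 2 = 1 := Int.odd_iff.1 hd
    rcases Int.emod_two_eq_zero_or_one y with h1 | h1
    · have hw : dl (f y) = 0 := by
        unfold dl
        rw [if_neg]
        unfold f
        rw [par_odd]; omega
      rw [hw, G, if_pos h1]
      push_cast
      omega
    · have hw : dl (f y) = 1 := by
        unfold dl
        rw [if_pos]
        unfold f
        rw [par_odd]; exact h1
      rw [hw, G, if_neg (by omega)]
      push_cast
      omega

/-- the parity of the numerator of `y / b` is that of `y` -/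
lemma num_par {b : ℕ} (hb : Odd b) (y : ℤ) : ((y : ℚ) / b).num % 2 = y % 2 := by
  have hb0 : (b : ℚ) ≠ 0 := by
    have : b ≠ 0 := by rintro rfl; simp at hb
    exact_mod_cast this
  set q : ℚ := (y : ℚ) / b with hq
  have hqd : (q.den : ℚ) ≠ 0 := by exact_mod_cast q.den_ne_zero
  have h1 : (y : ℚ) * q.den = q.num * b := by
    have h2 : (q.num : ℚ) / q.den = (y : ℚ) / b := by rw [Rat.num_div_den]
    rw [div_eq_div_iff hqd hb0] at h2
    exact h2.symm
  have h2 : y * q.den = q.num * b := by exact_mod_cast h1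
  have h3 : (q.den : ℤ) ∣ b := by
    have h4 : IsCoprime (q.den : ℤ) q.num := by
      have := q.isCoprime_num_den
      exact this.symm
    exact h4.dvd_of_dvd_mul_left ⟨y, by rw [← h2]; ring⟩
  have h5 : (q.den : ℤ) % 2 = 1 := by
    have h6 : q.den ∣ b := by exact_mod_cast h3
    have h7 : Odd q.den := Odd.of_dvd_nat hb h6
    have := Nat.odd_iff.1 h7
    omega
  have h6 : (b : ℤ) % 2 = 1 := by
    have := Nat.odd_iff.1 hb
    omega
  obtain ⟨u, hu⟩ : ∃ u, (q.den : ℤ) = 2 * u + 1 := ⟨(q.den : ℤ) / 2, by omega⟩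
  obtain ⟨v, hv⟩ : ∃ v, (b : ℤ) = 2 * v + 1 := ⟨(b : ℤ) / 2, by omega⟩
  have h7 : y - q.num = 2 * (q.num * v - y * u) := by
    rw [hu, hv] at h2
    linear_combination h2
  omega

/-- the map on the rationals and the map on the numerators -/
lemma T_div {b : ℕ} (hb : Odd b) (y : ℤ) : T ((y : ℚ) / b) = ((G b y : ℤ) : ℚ) / b := by
  have hb0 : (b : ℚ) ≠ 0 := by
    have : b ≠ 0 := by rintro rfl; simp at hb
    exact_mod_cast this
  have hb2 : (b : ℤ) % 2 = 1 := by
    have := Nat.odd_iff.1 hb
    omega
  unfold T G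
  rw [num_par hb]
  rcases Int.emod_two_eq_zero_or_one y with h | h
  · rw [if_pos h, if_pos h]
    have h1 : (y : ℚ) = 2 * ((y / 2 : ℤ) : ℚ) := by
      have : y = 2 * (y / 2) := by omega
      exact_mod_cast this
    rw [h1]
    field_simp
  · rw [if_neg (by omega), if_neg (by omega)]
    have h1 : (3 * y + b : ℚ) = 2 * (((3 * y + b) / 2 : ℤ) : ℚ) := by
      have : 3 * y + b = 2 * ((3 * y + b) / 2) := by omega
      exact_mod_cast this
    have h2 : 3 * ((y : ℚ) / b) + 1 = (3 * y + b) / b := by field_simp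
    rw [h2, h1]
    field_simp

lemma T_iter {b : ℕ} (hb : Odd b) (y : ℤ) (i : ℕ) :
    T^[i] ((y : ℚ) / b) = (((G b)^[i] y : ℤ) : ℚ) / b := by
  induction i with
  | zero => rfl
  | succ i ih => rw [Function.iterate_succ_apply', ih, T_div hb, Function.iterate_succ_apply']

lemma par_eq {α : ℚ} (hα : Odd α.den) (i : ℕ) : par α i = F.wd f (G α.den) α.num i := by
  have h1 : α = (α.num : ℚ) / (α.den : ℕ) := (Rat.num_div_den α).symm
  have h2 := T_iter hα α.num i
  rw [← h1] at h2
  unfold par F.wd f
  rw [h2, ZMod.intCast_eq_intCast_iff]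
  exact num_par hα _

lemma T_iter' {α : ℚ} (hα : Odd α.den) (i : ℕ) :
    T^[i] α = (((G α.den)^[i] α.num : ℤ) : ℚ) / (α.den : ℕ) := by
  have h1 : α = (α.num : ℚ) / (α.den : ℕ) := (Rat.num_div_den α).symm
  have h2 := T_iter hα α.num i
  rw [← h1] at h2
  exact h2

lemma two_pow_le (N : ℕ) : (2 : ℝ) ^ N ≤ Real.exp N := by
  have h2 : (2 : ℝ) ≤ Real.exp 1 := by
    have := Real.add_one_le_exp (1 : ℝ)
    linarith
  calc (2 : ℝ) ^ N ≤ Real.exp 1 ^ N := by gcongr
    _ = Real.exp N := by rw [← Real.exp_nat_mul, mul_one]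

/-- **Result.**

(1) If `α` is a rational number with odd denominator whose parity sequence is not eventually
periodic, then `p (n) / n` tends to infinity.

(2) For every `A` there is `K` such that for all `N ≥ K` and all `α = a / b` in lowest terms with
`b` odd and `|a|, b ≤ 2 ^ N`: if at most `A N` different blocks of length `N` occur among the first
`N ^ K` terms of the parity sequence of `α`, then `T^i(α) = T^j(α)` for some `i < j ≤ N ^ K`; in
particular the parity sequence of `α` is eventually periodic. -/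
theorem result :
    (∀ α : ℚ, Odd α.den → ¬ EvPer α →
      Tendsto (fun n : ℕ => (blocks α n : ℝ) / n) atTop atTop) ∧
    (∀ A : ℝ, ∃ K : ℕ, ∀ (α : ℚ) (N : ℕ), Odd α.den → K ≤ N → |α.num| ≤ 2 ^ N → α.den ≤ 2 ^ N →
      (blocksUpTo α (N ^ K) N : ℝ) ≤ A * N →
      (∃ i j, i < j ∧ j ≤ N ^ K ∧ T^[i] α = T^[j] α) ∧ EvPer α) := by
  have hev : ∀ α : ℚ, ∀ i j, i < j → T^[i] α = T^[j] α → EvPer α := by
    intro α i j hij h
    refine ⟨i, j - i, by omega, fun k hk => ?_⟩
    have e : T^[k + (j - i)] α = T^[k] α := by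
      have e1 : k + (j - i) = (k - i) + j := by omega
      rw [e1, Function.iterate_add_apply, ← h, ← Function.iterate_add_apply,
        Nat.sub_add_cancel hk]
    unfold par
    rw [e]
  constructor
  · intro α hα hper
    have hodd : Odd ((α.den : ℕ) : ℤ) := by exact_mod_cast hα
    have h1 := G.superlinear_all (p := 2) (q := 3) le_rfl (by norm_num)
      (by norm_num [Int.isCoprime_iff_gcd_eq_one]) dl (fun a => (α.den : ℤ) * (dl a : ℤ))
      (F.wd f (G α.den) α.num) (fun k => (G α.den)^[k] α.num)
      (fun k => by rw [Function.iterate_succ_apply']; exact (mp hodd).hG _)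
      (by
        have key : ∀ i j, i < j → (G α.den)^[i] α.num ≠ (G α.den)^[j] α.num := by
          intro i j hij h
          apply hper
          apply hev α i j hij
          rw [T_iter' hα, T_iter' hα, h]
        intro i j hij
        rcases lt_trichotomy i j with h1 | h1 | h1
        · exact absurd hij (key i j h1)
        · exact h1
        · exact absurd hij.symm (key j i h1))
    refine h1.congr fun n => ?_
    have e : blocks α n = cx (F.wd f (G α.den) α.num) n := by
      unfold blocks cx
      congr 1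
      congr 1
      funext i j
      exact par_eq hα _
    rw [e]
  · intro A
    obtain ⟨K, hK, h⟩ := G.single_map D A 1 1
    refine ⟨K, fun α N hα hN ha hb hcx => ?_⟩
    have hodd : Odd ((α.den : ℕ) : ℤ) := by exact_mod_cast hα
    obtain ⟨i, j, hij, hj, he, -⟩ := h N hN α.den f (G α.den) (mp hodd) (by
        have h1 : |((α.den : ℤ) : ℝ)| ≤ 2 ^ N := by
          rw [Int.cast_natCast, abs_of_nonneg (by positivity)]
          exact_mod_cast hb
        rw [one_mul]
        exact h1.trans (two_pow_le N)) α.num (by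
        have h1 : |(α.num : ℝ)| ≤ 2 ^ N := by exact_mod_cast ha
        rw [one_mul]
        exact h1.trans (two_pow_le N)) (by
        have e : blocksUpTo α (N ^ K) N = F.wc (F.wd f (G α.den) α.num) (N ^ K) N := by
          unfold blocksUpTo F.wc
          congr 1
          congr 1
          funext i j
          exact par_eq hα _
        rw [← e]
        exact hcx)
    have h2 : T^[i] α = T^[j] α := by rw [T_iter' hα, T_iter' hα, he]
    exact ⟨⟨i, j, hij, hj, h2⟩, hev α i j hij h2⟩

end Pool.Agent.Results.MP_1e211b_nt.RationalsSuperlinear
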